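import Mathlib
import Pool.Agent.H.MP_7e9539_an.Link

set_option autoImplicit false

namespace Pool.Agent.Results.MP_7e9539_an.Yes

open Set Pool.Agent.H.MP_7e9539_an

/-- hereditary -/
def Her {R : Type} [Mul R] (C D : Set R) : Prop := ∀ a ∈ C, ∀ b ∈ D, ∀ c ∈ C, a * b * c ∈ C

theorem result : ∀ (A E : Type) [NonUnitalCStarAlgebra A] [PartialOrder A] [StarOrderedRing A]
    [SMul A E] [NormedAddCommGroup E] [NormedSpace ℂ E] [CStarModule A E] [CompleteSpace E]
    (F : Submodule ℂ E), IsClosed (F : Set E) → (∀ x ∈ F, ∀ y, ∀ z ∈ F, inner A y z • x ∈ F) →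
    Her (Link A (F : Set E)) (Link A (univ : Set E)) := by
  intro A E _ _ _ _ _ _ _ _ F _ h
  rw [link_eq, link_eq]
  exact hered h fun N hN φ k x hx => dens F (fun x hx y _ z hz => h x hx y z hz) N hN φ k hx

end Pool.Agent.Results.MP_7e9539_an.Yes
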